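import Pool.Agent.helper91.HZF.Spec

set_option autoImplicit false

namespace Pool.Agent.HZF

open Finset Pool.Agent.helper38.Neg Pool.Agent.helper55.NT Pool.Agent.LN

/-- at least `t` of the first `i` functions are `true` -/
def MAJ_T {N M : ℕ} (f : Fin M → Fn N) (i t : ℕ) : Fn N :=
  fun y => decide (t ≤ (univ.filter fun j : Fin M => j.1 < i ∧ f j y = true).card)

theorem MAJ_card {N M : ℕ} (f : Fin M → Fn N) (i : ℕ) (hi : i < M) (y : Fin N → Bool) :
    (univ.filter fun j : Fin M => j.1 < i + 1 ∧ f j y = true).card =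
      (univ.filter fun j : Fin M => j.1 < i ∧ f j y = true).card + (if f ⟨i, hi⟩ y = true then 1 else 0) := by
  by_cases h : f ⟨i, hi⟩ y = true
  · rw [if_pos h]
    have h1 : (univ.filter fun j : Fin M => j.1 < i + 1 ∧ f j y = true) =
        insert ⟨i, hi⟩ (univ.filter fun j : Fin M => j.1 < i ∧ f j y = true) := by
      ext j
      simp only [mem_filter, mem_univ, true_and, mem_insert]
      constructor
      · rintro ⟨h2, h3⟩
        by_cases h4 : j.1 < i
        · exact Or.inr ⟨h4, h3⟩
        · exact Or.inl (Fin.ext (by simp only; omega))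
      · rintro (h2 | ⟨h2, h3⟩)
        · rw [h2]
          exact ⟨Nat.lt_succ_self i, h⟩
        · exact ⟨by omega, h3⟩
    rw [h1, card_insert_of_notMem (by simp)]
  · rw [if_neg h, add_zero]
    refine congrArg Finset.card ?_
    ext j
    simp only [mem_filter, mem_univ, true_and]
    constructor
    · rintro ⟨h2, h3⟩
      refine ⟨?_, h3⟩
      by_contra h4
      have h5 : j = ⟨i, hi⟩ := Fin.ext (by simp only; omega)
      rw [h5] at h3
      exact h h3
    · rintro ⟨h2, h3⟩
      exact ⟨by omega, h3⟩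

theorem MAJ_succ {N M : ℕ} (f : Fin M → Fn N) (i : ℕ) (hi : i < M) (t : ℕ) :
    MAJ_T f (i + 1) (t + 1) = fun y => MAJ_T f i (t + 1) y || (MAJ_T f i t y && f ⟨i, hi⟩ y) := by
  funext y
  unfold MAJ_T
  rw [MAJ_card f i hi y]
  generalize (univ.filter fun j : Fin M => j.1 < i ∧ f j y = true).card = c
  cases h : f ⟨i, hi⟩ y
  · simp
  · simp only [if_true, Bool.and_true]
    rw [Bool.eq_iff_iff]
    simp only [Bool.or_eq_true, decide_eq_true_eq]
    omega

theorem MAJ_tc {N M : ℕ} (f : Fin M → Fn N) (i : ℕ) : MAJ_T f i 0 = fun _ => true := by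
  funext y
  simp [MAJ_T]

theorem MAJ_main {N M : ℕ} (f : Fin M → Fn N) : ∀ i ≤ M,
    Rel (Set.range f) (2 + i * ((M + 2) * 2)) 0 (⋃ t ∈ range (M + 2), {MAJ_T f i t}) := by
  intro i
  induction i with
  | zero =>
    intro _
    have h1 := (Rel.const (Set.range f) true).union (Rel.const (Set.range f) false)
    refine h1.mono le_rfl ?_ (by omega) le_rfl
    intro g hg
    simp only [Set.mem_iUnion, Set.mem_singleton_iff, exists_prop] at hg
    obtain ⟨t, _, rfl⟩ := hg
    rcases Nat.eq_zero_or_pos t with h2 | h2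
    · subst h2
      rw [MAJ_tc]
      exact Or.inl rfl
    · refine Or.inr ?_
      simp only [Set.mem_singleton_iff]
      funext y
      simp only [MAJ_T, Nat.not_lt_zero, false_and, filter_false, card_empty, decide_eq_false_iff_not]
      omega
  | succ i ih =>
    intro hi
    have h1 := ih (by omega)
    have h2 : Rel (Set.range f ∪ ⋃ t ∈ range (M + 2), {MAJ_T f i t}) ((range (M + 2)).card * 2) 0
        (⋃ t ∈ range (M + 2), {MAJ_T f (i + 1) t}) := by
      refine Rel.biUnion _ _ ?_
      intro t ht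
      rcases t with _ | t
      · have h3 : MAJ_T f (i + 1) 0 ∈ (Set.range f ∪ ⋃ t ∈ range (M + 2), {MAJ_T f i t}) := by
          refine Or.inr ?_
          simp only [Set.mem_iUnion, Set.mem_singleton_iff, exists_prop]
          exact ⟨0, by simp, by rw [MAJ_tc, MAJ_tc]⟩
        exact (Rel.sub (Set.singleton_subset_iff.mpr h3)).mono le_rfl le_rfl (by omega) le_rfl
      · have ht' := mem_range.mp ht
        have m1 : MAJ_T f i t ∈ (Set.range f ∪ ⋃ t ∈ range (M + 2), {MAJ_T f i t}) := by
          refine Or.inr ?_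
          simp only [Set.mem_iUnion, Set.mem_singleton_iff, exists_prop]
          exact ⟨t, mem_range.mpr (by omega), rfl⟩
        have m2 : MAJ_T f i (t + 1) ∈ (Set.range f ∪ ⋃ t ∈ range (M + 2), {MAJ_T f i t}) := by
          refine Or.inr ?_
          simp only [Set.mem_iUnion, Set.mem_singleton_iff, exists_prop]
          exact ⟨t + 1, ht, rfl⟩
        have m3 : f ⟨i, hi⟩ ∈ (Set.range f ∪ ⋃ t ∈ range (M + 2), {MAJ_T f i t}) := Or.inl ⟨_, rfl⟩
        have h4 := (Rel.and m1 m3).trans' (Rel.or (Or.inl m2) (Or.inr rfl))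
        rw [MAJ_succ f i hi t]
        exact h4
    refine (h1.trans' h2).mono le_rfl le_rfl ?_ le_rfl
    rw [card_range]
    ring_nf
    omega

theorem MAJ : MAJ_stmt := by
  intro N M f
  refine (MAJ_main f M le_rfl).mono le_rfl ?_ ?_ le_rfl
  · rw [Set.singleton_subset_iff]
    simp only [Set.mem_iUnion, Set.mem_singleton_iff, exists_prop]
    refine ⟨M / 2 + 1, mem_range.mpr (by omega), ?_⟩
    funext y
    unfold MAJ_T
    have h1 : (univ.filter fun j : Fin M => j.1 < M ∧ f j y = true) = univ.filter fun j => f j y = true := by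
      ext j
      simp
    rw [h1, Bool.eq_iff_iff]
    simp only [decide_eq_true_eq]
    omega
  · nlinarith [Nat.zero_le M]

end Pool.Agent.HZF
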